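import Pool.Agent.AA.Z2

set_option autoImplicit false

namespace Pool.Agent.Results.MP_4cf439_nt.AlmostAll

/-- The set of the integers `n ≥ 3` such that any three trinomial coefficients `n!/(a! b! c!)` with
positive parts of sum `n` have a common factor larger than one has natural density one. -/
theorem result :
    Filter.Tendsto (fun N : ℕ => (Set.ncard {n : ℕ | 3 ≤ n ∧ n ≤ N ∧
        ∀ a₁ b₁ c₁ a₂ b₂ c₂ a₃ b₃ c₃ : ℕ,
          0 < a₁ → 0 < b₁ → 0 < c₁ → a₁ + b₁ + c₁ = n →
          0 < a₂ → 0 < b₂ → 0 < c₂ → a₂ + b₂ + c₂ = n →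
          0 < a₃ → 0 < b₃ → 0 < c₃ → a₃ + b₃ + c₃ = n →
          1 < Nat.gcd
                (Nat.gcd (n.factorial / (a₁.factorial * b₁.factorial * c₁.factorial))
                         (n.factorial / (a₂.factorial * b₂.factorial * c₂.factorial)))
                (n.factorial / (a₃.factorial * b₃.factorial * c₃.factorial))} : ℝ) / (N : ℝ))
      Filter.atTop (nhds 1) := by
  classical
  refine AA.density.congr (fun N => ?_)
  congr 2
  rw [← Set.ncard_coe_finset]
  congr 1
  ext n
  refine (Finset.mem_coe.trans (Finset.mem_filter.trans ?_))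
  rw [Finset.mem_Icc, and_assoc]
  exact Iff.rfl

end Pool.Agent.Results.MP_4cf439_nt.AlmostAll
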